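import Mathlib
import Pool.Agent.Work.MP_321bb7_mp.Defs
import Pool.Agent.Work.MP_321bb7_mp.SU3c
import Pool.Agent.Work.MP_321bb7_mp.Final

set_option autoImplicit false

namespace Pool.Agent.Results.MP_321bb7_mp.SU3Sextet

open Pool.Agent.Work.MP_321bb7_mp

/-- There is a non-chiral EHI whose Rains function has a negative minimum and with
`Tr R < 0`. Its gauge group is the simple group `SU(3)`, it is asymptotically free, its `R`-charges
are those selected by `a`-maximisation, and none of its representations has a zero weight (in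
particular there are no gauge singlets). -/
theorem result : ∃ E : EHI, E.NonChiral ∧ E.LhMin < 0 ∧ E.TrR < 0 ∧
    E.K = su3 ∧ E.AsymptoticallyFree ∧ E.AMaximal ∧ ∀ j, (E.M j).mult 0 = 0 := by
  have hs : Real.sqrt 131 ^ 2 = 131 := Real.sq_sqrt (by norm_num)
  have hs0 : 0 ≤ Real.sqrt 131 := Real.sqrt_nonneg _
  have hlo : 11 < Real.sqrt 131 := by nlinarith
  have hhi : Real.sqrt 131 < 12 := by nlinarith
  obtain ⟨w, hw⟩ : ∃ w : ℝ, w = (75 - Real.sqrt 131) / 123 := ⟨_, rfl⟩
  have h1 : 1 / 2 < w := by rw [hw]; linarith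
  have h2 : w < 5 / 9 := by rw [hw]; linarith
  have hq : 369 * w ^ 2 - 450 * w + 134 = 0 := by
    rw [hw]
    linear_combination (1 / 41) * hs
  refine ⟨theory w h1 h2, nonChiral _ h1 h2, LhMin_neg _ h1 h2, ?_, rfl,
    asymptFree _ h1 h2, aMaximal _ h1 h2 hq, noZero _ h1 h2⟩
  rw [TrR_eq]
  linarith

end Pool.Agent.Results.MP_321bb7_mp.SU3Sextet
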